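import Pool.Agent.W533.LP.Stm2

/-!
# Geometric last passage percolation: Falik and Samorodnitsky for the clipped function
-/

namespace Pool.Agent.W428.LP.GeoFS

open MeasureTheory ProbabilityTheory Pool.Agent.W533.LP

lemma geoM_singleton (q : ℝ) (k : ℕ) : geoM q {k} = ENNReal.ofReal ((1 - q) * q ^ k) := by
  unfold geoM
  rw [Measure.sum_apply _ (measurableSet_singleton k), tsum_eq_single k]
  · simp
  · intro j hj
    simp [hj]

lemma geoM_prob {q : ℝ} (hq0 : 0 < q) (hq1 : q < 1) : IsProbabilityMeasure (geoM q) := by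
  constructor
  unfold geoM
  rw [Measure.sum_apply _ MeasurableSet.univ]
  simp only [Measure.smul_apply, measure_univ, smul_eq_mul, mul_one]
  rw [← ENNReal.ofReal_tsum_of_nonneg, tsum_mul_left, tsum_geometric_of_lt_one hq0.le hq1,
    mul_inv_cancel₀ (by linarith)]
  · simp
  · intro k
    have : 0 ≤ 1 - q := by linarith
    positivity
  · exact (summable_geometric_of_lt_one hq0.le hq1).mul_left _

lemma geoM_real_singleton {q : ℝ} (hq0 : 0 < q) (hq1 : q < 1) (k : ℕ) :
    (geoM q).real {k} = (1 - q) * q ^ k := by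
  rw [measureReal_def, geoM_singleton, ENNReal.toReal_ofReal]
  have : 0 ≤ 1 - q := by linarith
  positivity

lemma geoM_tail {q : ℝ} (hq0 : 0 < q) (hq1 : q < 1) (L : ℕ) :
    (geoM q).real {k | L ≤ k} = q ^ L := by
  have := geoM_prob hq0 hq1
  have h1 : {k : ℕ | L ≤ k} = (↑(Finset.range L) : Set ℕ)ᶜ := by
    ext k
    simp
  rw [h1, probReal_compl_eq_one_sub (Finset.measurableSet _)]
  have h2 : (geoM q).real (↑(Finset.range L) : Set ℕ) = ∑ k ∈ Finset.range L, (1 - q) * q ^ k := by
    rw [← sum_measureReal_singleton]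
    exact Finset.sum_congr rfl (fun k _ => geoM_real_singleton hq0 hq1 k)
  rw [h2, ← Finset.mul_sum, ]
  have h3 := geom_sum_eq (ne_of_lt hq1) L
  rw [h3]
  have h4 : q - 1 ≠ 0 := by linarith
  field_simp
  ring

/-- The clipping map. -/
def clip (L : ℕ) (k : ℕ) : Fin (L + 1) := ⟨min k L, by omega⟩

/-- Reconstruction. -/
def rr (L : ℕ) (a : Fin (L + 1)) (k : ℕ) : ℕ := if (a : ℕ) < L then a else L + k

/-- Law of the clipped variable. -/
noncomputable def wM (q : ℝ) (L : ℕ) : Measure (Fin (L + 1)) := (geoM q).map (clip L)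

/-- Weights. -/
noncomputable def ww (q : ℝ) (L : ℕ) (a : Fin (L + 1)) : ℝ := (wM q L).real {a}


lemma clip_meas (L : ℕ) : Measurable (clip L) := measurable_of_countable _

lemma wM_prob {q : ℝ} (hq0 : 0 < q) (hq1 : q < 1) (L : ℕ) : IsProbabilityMeasure (wM q L) := by
  have := geoM_prob hq0 hq1
  exact Measure.isProbabilityMeasure_map (clip_meas L).aemeasurable

lemma ww_ge {q : ℝ} (hq0 : 0 < q) (hq1 : q < 1) (L : ℕ) (a : Fin (L + 1)) :
    (1 - q) * q ^ L ≤ ww q L a := by
  have := geoM_prob hq0 hq1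
  have h1 : (1 - q) * q ^ L ≤ (1 - q) * q ^ (a : ℕ) := by
    apply mul_le_mul_of_nonneg_left _ (by linarith)
    exact pow_le_pow_of_le_one hq0.le hq1.le (by have := a.2; omega)
  refine h1.trans ?_
  rw [← geoM_real_singleton hq0 hq1, ww, wM, map_measureReal_apply (clip_meas L)
    (measurableSet_singleton a)]
  apply measureReal_mono _ (measure_ne_top _ _)
  intro k hk
  simp only [Set.mem_singleton_iff] at hk
  subst hk
  simp only [Set.mem_preimage, Set.mem_singleton_iff, clip]
  ext
  simp only [inf_eq_left]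
  have := a.2
  omega

lemma ww_sum {q : ℝ} (hq0 : 0 < q) (hq1 : q < 1) (L : ℕ) : ∑ a, ww q L a = 1 := by
  have := wM_prob hq0 hq1 L
  unfold ww
  rw [sum_measureReal_singleton]
  simp

lemma rr_mp {q : ℝ} (hq0 : 0 < q) (hq1 : q < 1) (L : ℕ) :
    MeasurePreserving (fun z : Fin (L + 1) × ℕ => rr L z.1 z.2) ((wM q L).prod (geoM q))
      (geoM q) := by
  have := geoM_prob hq0 hq1
  have := wM_prob hq0 hq1 L
  have hm : Measurable (fun z : Fin (L + 1) × ℕ => rr L z.1 z.2) := measurable_of_countable _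
  refine ⟨hm, ?_⟩
  have := Measure.isProbabilityMeasure_map (μ := (wM q L).prod (geoM q)) hm.aemeasurable
  refine Measure.ext_of_singleton (fun j => ?_)
  rw [Measure.map_apply hm (measurableSet_singleton j)]
  by_cases hj : j < L
  · have h1 : (fun z : Fin (L + 1) × ℕ => rr L z.1 z.2) ⁻¹' {j} =
        {(⟨j, by omega⟩ : Fin (L + 1))} ×ˢ Set.univ := by
      ext ⟨a, k⟩
      simp only [rr, Set.mem_preimage, Set.mem_singleton_iff, Set.mem_prod, Set.mem_univ,
        and_true, Fin.ext_iff]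
      split_ifs with h
      · rfl
      · constructor
        · intro h; omega
        · intro h; omega
    rw [h1, Measure.prod_prod, measure_univ, mul_one, wM, Measure.map_apply (clip_meas L)
      (measurableSet_singleton _)]
    congr 1
    ext k
    simp only [clip, Set.mem_preimage, Set.mem_singleton_iff, Fin.ext_iff]
    omega
  · have h1 : (fun z : Fin (L + 1) × ℕ => rr L z.1 z.2) ⁻¹' {j} =
        {Fin.last L} ×ˢ {j - L} := by
      ext ⟨a, k⟩
      simp only [rr, Set.mem_preimage, Set.mem_singleton_iff, Set.mem_prod, 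
        Fin.ext_iff, Fin.val_last]
      have := a.2
      split_ifs with h
      · constructor
        · intro h; omega
        · intro h; omega
      · constructor
        · intro h; constructor <;> omega
        · intro h; omega
    rw [h1, Measure.prod_prod, wM, Measure.map_apply (clip_meas L)
      (measurableSet_singleton _)]
    have h2 : clip L ⁻¹' {Fin.last L} = {k | L ≤ k} := by
      ext k
      simp only [clip, Set.mem_preimage, Set.mem_singleton_iff, Fin.ext_iff, Fin.val_last,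
        Set.mem_ofPred_eq]
      omega
    have h3 : geoM q {k | L ≤ k} = ENNReal.ofReal (q ^ L) := by
      rw [← geoM_tail hq0 hq1 L, measureReal_def, ENNReal.ofReal_toReal (measure_ne_top _ _)]
    rw [h2, h3, geoM_singleton, geoM_singleton, ← ENNReal.ofReal_mul (by positivity)]
    congr 1
    have h4 : j = L + (j - L) := by omega
    conv_rhs => rw [h4, pow_add]
    ring


/-- Product law of the clipped variables. -/
noncomputable def PP (q : ℝ) (L n : ℕ) : Measure (V n → Fin (L + 1)) :=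
  Measure.pi (fun _ => wM q L)

/-- Reconstruction of all the variables. -/
def RR (L : ℕ) {n : ℕ} (x : V n → Fin (L + 1)) (k : V n → ℕ) : V n → ℕ :=
  fun v => rr L (x v) (k v)

/-- Clipping all the variables. -/
def cl (L : ℕ) {n : ℕ} (y : V n → ℕ) : V n → Fin (L + 1) := fun v => clip L (y v)

section product

variable {q : ℝ} {n : ℕ}

lemma muY_prob (hq0 : 0 < q) (hq1 : q < 1) (n : ℕ) : IsProbabilityMeasure (muY q n) := by
  have := geoM_prob hq0 hq1
  unfold muY
  infer_instance

lemma PP_prob (hq0 : 0 < q) (hq1 : q < 1) (L n : ℕ) : IsProbabilityMeasure (PP q L n) := by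
  have := wM_prob hq0 hq1 L
  unfold PP
  infer_instance

lemma muY_ne (hq0 : 0 < q) (hq1 : q < 1) (y : V n → ℕ) : muY q n {y} ≠ 0 := by
  have := geoM_prob hq0 hq1
  unfold muY
  rw [Measure.pi_singleton]
  rw [Finset.prod_ne_zero_iff]
  intro v _
  rw [geoM_singleton, ENNReal.ofReal_ne_zero_iff]
  have : 0 < 1 - q := by linarith
  positivity

lemma PP_ne (hq0 : 0 < q) (hq1 : q < 1) (L : ℕ) (x : V n → Fin (L + 1)) :
    PP q L n {x} ≠ 0 := by
  have := wM_prob hq0 hq1 L
  unfold PP
  rw [Measure.pi_singleton]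
  rw [Finset.prod_ne_zero_iff]
  intro v _ h
  have h1 := ww_ge hq0 hq1 L (x v)
  have h2 : ww q L (x v) = 0 := by
    rw [ww, measureReal_def, h]; simp
  have : 0 < (1 - q) * q ^ L := mul_pos (by linarith) (by positivity)
  linarith

lemma RR_mp (hq0 : 0 < q) (hq1 : q < 1) (L : ℕ) :
    MeasurePreserving (fun z : (V n → Fin (L + 1)) × (V n → ℕ) => RR L z.1 z.2)
      ((PP q L n).prod (muY q n)) (muY q n) := by
  have := geoM_prob hq0 hq1
  have := wM_prob hq0 hq1 L
  have h1 := measurePreserving_arrowProdEquivProdArrow (Fin (L + 1)) ℕ (V n)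
    (fun _ => wM q L) (fun _ => geoM q)
  have h2 := measurePreserving_pi (fun _ : V n => (wM q L).prod (geoM q)) (fun _ => geoM q)
    (fun _ => rr_mp hq0 hq1 L)
  exact h2.comp h1.symm

lemma cl_mp (hq0 : 0 < q) (hq1 : q < 1) (L : ℕ) :
    MeasurePreserving (fun y : V n → ℕ => cl L y) (muY q n) (PP q L n) := by
  have := geoM_prob hq0 hq1
  have := wM_prob hq0 hq1 L
  exact measurePreserving_pi (fun _ : V n => geoM q) (fun _ => wM q L)
    (fun _ => ⟨clip_meas L, rfl⟩)

lemma U_mp (hq0 : 0 < q) (hq1 : q < 1) (v : V n) :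
    MeasurePreserving (fun z : ℕ × (V n → ℕ) => Function.update z.2 v z.1)
      ((geoM q).prod (muY q n)) (muY q n) := by
  have := geoM_prob hq0 hq1
  refine ⟨measurable_of_countable _, ?_⟩
  unfold muY
  refine (Measure.pi_eq (fun t ht => ?_)).symm
  rw [Measure.map_apply (measurable_of_countable _) (MeasurableSet.univ_pi ht)]
  have h1 : (fun z : ℕ × (V n → ℕ) => Function.update z.2 v z.1) ⁻¹' (Set.univ.pi t) =
      (t v) ×ˢ (Set.univ.pi (Function.update t v Set.univ)) := by
    ext ⟨l, k⟩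
    simp only [Set.mem_preimage, Set.mem_pi, Set.mem_univ, forall_const, Set.mem_prod]
    constructor
    · intro h
      refine ⟨by simpa using h v, fun u => ?_⟩
      by_cases hu : u = v
      · subst hu; simp
      · simpa [hu] using h u
    · rintro ⟨h, h'⟩ u
      by_cases hu : u = v
      · subst hu; simpa using h
      · simpa [hu] using h' u
  rw [h1, Measure.prod_prod, Measure.pi_pi]
  rw [← Finset.mul_prod_erase Finset.univ _ (Finset.mem_univ v),
    ← Finset.mul_prod_erase Finset.univ _ (Finset.mem_univ v)]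
  simp only [Function.update_self, measure_univ, one_mul]
  congr 1
  apply Finset.prod_congr rfl
  intro u hu
  rw [Function.update_of_ne (Finset.ne_of_mem_erase hu)]

lemma fE_eq (hq0 : 0 < q) (hq1 : q < 1) (L : ℕ) (f : (V n → Fin (L + 1)) → ℝ) :
    fE (ww q L) f = ∫ x, f x ∂(PP q L n) := by
  have := wM_prob hq0 hq1 L
  have := PP_prob hq0 hq1 L n
  rw [integral_fintype (Integrable.of_finite)]
  unfold fE
  apply Finset.sum_congr rfl
  intro x _
  rw [smul_eq_mul]
  congr 1
  unfold PP ww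
  simp only [measureReal_def]
  rw [Measure.pi_singleton, ENNReal.toReal_prod]


/-- Average over the hidden parts. -/
noncomputable def FF (q : ℝ) (L : ℕ) (g : (V n → ℕ) → ℝ) (x : V n → Fin (L + 1)) : ℝ :=
  ∫ k, g (RR L x k) ∂(muY q n)

/-- Average over one variable. -/
noncomputable def AA (q : ℝ) (g : (V n → ℕ) → ℝ) (v : V n) (y : V n → ℕ) : ℝ :=
  ∫ l, g (Function.update y v l) ∂(geoM q)

lemma int_RR (hq0 : 0 < q) (hq1 : q < 1) (L : ℕ) {g : (V n → ℕ) → ℝ}
    (hg : Integrable g (muY q n)) :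
    Integrable (fun z : (V n → Fin (L + 1)) × (V n → ℕ) => g (RR L z.1 z.2))
      ((PP q L n).prod (muY q n)) :=
  (RR_mp hq0 hq1 L).integrable_comp_of_integrable hg

lemma int_RR' (hq0 : 0 < q) (hq1 : q < 1) (L : ℕ) {g : (V n → ℕ) → ℝ}
    (hg : Integrable g (muY q n)) (x : V n → Fin (L + 1)) :
    Integrable (fun k : V n → ℕ => g (RR L x k)) (muY q n) := by
  have := muY_prob hq0 hq1 n
  have := PP_prob hq0 hq1 L n
  have h := (int_RR hq0 hq1 L hg).prod_right_ae
  rw [ae_iff_of_countable] at h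
  exact h x (PP_ne hq0 hq1 L x)

lemma int_U (hq0 : 0 < q) (hq1 : q < 1) {g : (V n → ℕ) → ℝ}
    (hg : Integrable g (muY q n)) (v : V n) :
    Integrable (fun z : ℕ × (V n → ℕ) => g (Function.update z.2 v z.1))
      ((geoM q).prod (muY q n)) :=
  (U_mp hq0 hq1 v).integrable_comp_of_integrable hg

lemma int_U' (hq0 : 0 < q) (hq1 : q < 1) {g : (V n → ℕ) → ℝ}
    (hg : Integrable g (muY q n)) (v : V n) (y : V n → ℕ) :
    Integrable (fun l : ℕ => g (Function.update y v l)) (geoM q) := by
  have := muY_prob hq0 hq1 n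
  have := geoM_prob hq0 hq1
  have h := (int_U hq0 hq1 hg v).prod_left_ae
  rw [ae_iff_of_countable] at h
  exact h y (muY_ne hq0 hq1 y)

lemma int_AA (hq0 : 0 < q) (hq1 : q < 1) {g : (V n → ℕ) → ℝ}
    (hg : Integrable g (muY q n)) (v : V n) : Integrable (AA q g v) (muY q n) := by
  have := muY_prob hq0 hq1 n
  have := geoM_prob hq0 hq1
  exact (int_U hq0 hq1 hg v).integral_prod_right

lemma update_RR (L : ℕ) (x : V n → Fin (L + 1)) (k : V n → ℕ) (v : V n) (a : Fin (L + 1))
    (l : ℕ) : RR L (Function.update x v a) (Function.update k v l) =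
      Function.update (RR L x k) v (rr L a l) := by
  ext u
  by_cases hu : u = v
  · subst hu; simp [RR]
  · simp [RR, hu]

lemma key1 (hq0 : 0 < q) (hq1 : q < 1) (L : ℕ) {g : (V n → ℕ) → ℝ}
    (hg : Integrable g (muY q n)) (v : V n) (x : V n → Fin (L + 1)) (a : Fin (L + 1)) :
    Integrable (fun k => ∫ l, g (Function.update (RR L x k) v (rr L a l)) ∂(geoM q))
      (muY q n) ∧
    FF q L g (Function.update x v a) =
      ∫ k, ∫ l, g (Function.update (RR L x k) v (rr L a l)) ∂(geoM q) ∂(muY q n) := by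
  have := muY_prob hq0 hq1 n
  have := geoM_prob hq0 hq1
  have h1 : Integrable (fun k : V n → ℕ => g (RR L (Function.update x v a) k)) (muY q n) :=
    int_RR' hq0 hq1 L hg _
  have h2 : Integrable (fun z : ℕ × (V n → ℕ) =>
      g (Function.update (RR L x z.2) v (rr L a z.1))) ((geoM q).prod (muY q n)) := by
    have h3 := (U_mp hq0 hq1 v).integrable_comp_of_integrable h1
    refine h3.congr (Filter.Eventually.of_forall (fun z => ?_))
    simp only [Function.comp_apply, update_RR]
  refine ⟨h2.integral_prod_right, ?_⟩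
  rw [← integral_prod_symm _ h2]
  unfold FF
  rw [← (U_mp hq0 hq1 v).map_eq, integral_map (measurable_of_countable _).aemeasurable]
  · rw [(U_mp hq0 hq1 v).map_eq]
    simp only [update_RR]
  · exact (measurable_of_countable _).aestronglyMeasurable

lemma key2 (hq0 : 0 < q) (hq1 : q < 1) (L : ℕ) {g : (V n → ℕ) → ℝ}
    (hg : Integrable g (muY q n)) (v : V n) (x : V n → Fin (L + 1)) :
    ∑ a, ww q L a * FF q L g (Function.update x v a) =
      ∫ k, AA q g v (RR L x k) ∂(muY q n) := by
  have := muY_prob hq0 hq1 n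
  have := geoM_prob hq0 hq1
  have := wM_prob hq0 hq1 L
  have h0 : ∀ a, ww q L a * FF q L g (Function.update x v a) =
      ∫ k, ww q L a * ∫ l, g (Function.update (RR L x k) v (rr L a l)) ∂(geoM q) ∂(muY q n) := by
    intro a
    rw [(key1 hq0 hq1 L hg v x a).2, ← integral_const_mul]
  simp_rw [h0]
  rw [← integral_finsetSum]
  · congr 1
    ext k
    have h1 := int_U' hq0 hq1 hg v (RR L x k)
    have h2 := (rr_mp hq0 hq1 L).integrable_comp_of_integrable h1
    have h3 : AA q g v (RR L x k) = ∫ z : Fin (L + 1) × ℕ,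
        g (Function.update (RR L x k) v (rr L z.1 z.2)) ∂((wM q L).prod (geoM q)) := by
      unfold AA
      conv_lhs => rw [← (rr_mp hq0 hq1 L).map_eq]
      rw [integral_map (measurable_of_countable _).aemeasurable]
      exact (measurable_of_countable _).aestronglyMeasurable
    have h4 : Integrable (fun z : Fin (L + 1) × ℕ =>
        g (Function.update (RR L x k) v (rr L z.1 z.2))) ((wM q L).prod (geoM q)) := h2
    rw [h3, integral_prod _ h4, integral_fintype (Integrable.of_finite)]
    rfl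
  · intro a _
    exact (key1 hq0 hq1 L hg v x a).1.const_mul _

lemma fD_eq (hq0 : 0 < q) (hq1 : q < 1) (L : ℕ) {g : (V n → ℕ) → ℝ}
    (hg : Integrable g (muY q n)) (v : V n) (x : V n → Fin (L + 1)) :
    fD (ww q L) (FF q L g) v x = ∫ k, Dv q g v (RR L x k) ∂(muY q n) := by
  unfold fD
  rw [key2 hq0 hq1 L hg v x]
  have h1 := int_RR' hq0 hq1 L hg x
  have h2 := int_RR' hq0 hq1 L (int_AA hq0 hq1 hg v) x
  have h3 : FF q L g x = ∫ k, g (RR L x k) ∂(muY q n) := rfl
  rw [h3, ← integral_sub h1 h2]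
  rfl

lemma gL_eq (q ρ : ℝ) (s L : ℕ) (y : V n → ℕ) :
    gL q ρ s L y = FF q L (gg q ρ s) (cl L y) := by
  unfold gL FF
  congr 1
  ext k
  congr 1
  ext v
  have h0 : ((cl L y v : Fin (L + 1)) : ℕ) = min (y v) L := rfl
  simp only [RR, rr, h0]
  split_ifs <;> omega


lemma l1_le (hq0 : 0 < q) (hq1 : q < 1) (L : ℕ) {g : (V n → ℕ) → ℝ}
    (hg : Integrable g (muY q n)) (v : V n) (hD : Integrable (Dv q g v) (muY q n)) :
    fE (ww q L) (fun x => |fD (ww q L) (FF q L g) v x|) ≤ ∫ y, |Dv q g v y| ∂(muY q n) := by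
  have := muY_prob hq0 hq1 n
  have := PP_prob hq0 hq1 L n
  have hA : Integrable (fun y => |Dv q g v y|) (muY q n) := hD.abs
  have h1 := int_RR hq0 hq1 L hA
  have h2 : ∫ y, |Dv q g v y| ∂(muY q n) =
      ∫ x, ∫ k, |Dv q g v (RR L x k)| ∂(muY q n) ∂(PP q L n) := by
    rw [← integral_prod _ h1]
    conv_lhs => rw [← (RR_mp hq0 hq1 L).map_eq]
    rw [integral_map (measurable_of_countable _).aemeasurable]
    exact (measurable_of_countable _).aestronglyMeasurable
  rw [h2, fE_eq hq0 hq1]
  refine integral_mono Integrable.of_finite Integrable.of_finite (fun x => ?_)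
  simp only []
  rw [fD_eq hq0 hq1 L hg]
  exact abs_integral_le_integral_abs

lemma l2_le (hq0 : 0 < q) (hq1 : q < 1) (L : ℕ) {g : (V n → ℕ) → ℝ}
    (hg : Integrable g (muY q n)) (v : V n) (hD : MemLp (Dv q g v) 2 (muY q n)) :
    fE (ww q L) (fun x => (fD (ww q L) (FF q L g) v x) ^ 2) ≤
      ∫ y, (Dv q g v y) ^ 2 ∂(muY q n) := by
  have := muY_prob hq0 hq1 n
  have := PP_prob hq0 hq1 L n
  have hA : Integrable (fun y => (Dv q g v y) ^ 2) (muY q n) := hD.integrable_sq
  have h1 := int_RR hq0 hq1 L hA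
  have h2 : ∫ y, (Dv q g v y) ^ 2 ∂(muY q n) =
      ∫ x, ∫ k, (Dv q g v (RR L x k)) ^ 2 ∂(muY q n) ∂(PP q L n) := by
    rw [← integral_prod _ h1]
    conv_lhs => rw [← (RR_mp hq0 hq1 L).map_eq]
    rw [integral_map (measurable_of_countable _).aemeasurable]
    exact (measurable_of_countable _).aestronglyMeasurable
  rw [h2, fE_eq hq0 hq1]
  refine integral_mono Integrable.of_finite Integrable.of_finite (fun x => ?_)
  simp only []
  rw [fD_eq hq0 hq1 L hg]
  have h3 : MemLp (fun k => Dv q g v (RR L x k)) 2 (muY q n) := by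
    rw [memLp_two_iff_integrable_sq (measurable_of_countable _).aestronglyMeasurable]
    exact int_RR' hq0 hq1 L hA x
  have h4 := variance_nonneg (fun k => Dv q g v (RR L x k)) (muY q n)
  rw [variance_eq_sub h3] at h4
  have h5 : ∫ k, ((fun k => Dv q g v (RR L x k)) ^ 2) k ∂(muY q n) =
    ∫ k, (Dv q g v (RR L x k)) ^ 2 ∂(muY q n) := rfl
  rw [h5] at h4
  linarith

lemma var_eq (hq0 : 0 < q) (hq1 : q < 1) (L : ℕ) (ρ : ℝ) (s : ℕ) :
    variance (fun y : V n → ℕ => gL q ρ s L y) (muY q n) =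
      fE (ww q L) (fun x : V n → Fin (L + 1) => (FF q L (gg q ρ s) x -
        fE (ww q L) (fun x : V n → Fin (L + 1) => FF q L (gg q ρ s) x)) ^ 2) := by
  have := muY_prob hq0 hq1 n
  have := PP_prob hq0 hq1 L n
  have h1 : (fun y : V n → ℕ => gL q ρ s L y) = (FF q L (gg q ρ s)) ∘ (fun y => cl L y) := by
    ext y
    exact gL_eq q ρ s L y
  rw [h1, ← variance_map (measurable_of_countable _).aemeasurable
    (measurable_of_countable _).aemeasurable, (cl_mp hq0 hq1 L).map_eq,
    variance_eq_integral (measurable_of_countable _).aemeasurable, fE_eq hq0 hq1, fE_eq hq0 hq1]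

end product

theorem gFS (hFS : FS) (hLaw : GLaw) (hVar : GVar) : GFS := by
  intro q hq0 hq1
  obtain ⟨C, hC, hC'⟩ := hFS
  have hl1 : 0 ≤ Real.log (1 / (1 - q)) := Real.log_nonneg (by
    rw [le_div_iff₀ (by linarith)]; linarith)
  have hl2 : 0 ≤ Real.log (1 / q) := Real.log_nonneg (by
    rw [le_div_iff₀ hq0]; linarith)
  refine ⟨C * (1 + Real.log (1 / (1 - q)) + Real.log (1 / q)), by positivity, ?_⟩
  intro ρ s hpar n L S hS hsum hv
  have := muY_prob hq0 hq1 n
  have hgm : MemLp (fun y : V n → ℕ => gg q ρ s y) 2 (muY q n) :=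
    (hLaw q ρ s hpar n).2.2.2.2.2.2
  have hg : Integrable (gg q ρ s) (muY q n) := hgm.integrable (by norm_num)
  have hD : ∀ v, MemLp (Dv q (gg q ρ s) v) 2 (muY q n) := fun v => (hVar q ρ s hpar n v).1
  have hp0 : 0 < (1 - q) * q ^ L := mul_pos (by linarith) (by positivity)
  have h1 : ∑ v : V n, (fE (ww q L) (fun x : V n → Fin (L + 1) =>
      |fD (ww q L) (FF q L (gg q ρ s)) v x|)) ^ 2 ≤ S := by
    refine le_trans (Finset.sum_le_sum (fun v _ => ?_)) hsum
    refine pow_le_pow_left₀ ?_ (l1_le hq0 hq1 L hg v ((hD v).integrable (by norm_num))) 2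
    rw [fE_eq hq0 hq1]
    exact integral_nonneg (fun x => abs_nonneg _)
  rw [var_eq hq0 hq1] at hv ⊢
  have h2 := hC' (ww q L) ((1 - q) * q ^ L) S (fun x : V n → Fin (L + 1) => FF q L (gg q ρ s) x)
    hp0 (ww_ge hq0 hq1 L)
    (ww_sum hq0 hq1 L) hS h1 hv
  refine h2.trans ?_
  have h3 : Real.log (1 / ((1 - q) * q ^ L)) =
      Real.log (1 / (1 - q)) + L * Real.log (1 / q) := by
    rw [one_div, one_div, one_div, Real.log_inv, Real.log_inv, Real.log_inv,
      Real.log_mul (by linarith) (by positivity), Real.log_pow]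
    ring
  have h4 : C * (1 + Real.log (1 / ((1 - q) * q ^ L))) ≤
      C * (1 + Real.log (1 / (1 - q)) + Real.log (1 / q)) * ((L : ℝ) + 1) := by
    rw [h3, mul_assoc]
    apply mul_le_mul_of_nonneg_left _ hC.le
    have h5 : (0 : ℝ) ≤ L := Nat.cast_nonneg L
    nlinarith [mul_nonneg h5 hl1]
  have h6 : 0 ≤ ∑ v : V n, fE (ww q L) (fun x : V n → Fin (L + 1) =>
      (fD (ww q L) (FF q L (gg q ρ s)) v x) ^ 2) := by
    apply Finset.sum_nonneg
    intro v _
    rw [fE_eq hq0 hq1]
    exact integral_nonneg (fun x => sq_nonneg _)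
  refine (mul_le_mul_of_nonneg_right h4 h6).trans ?_
  apply mul_le_mul_of_nonneg_left _ (by positivity)
  exact Finset.sum_le_sum (fun v _ => l2_le hq0 hq1 L hg v (hD v))

end Pool.Agent.W428.LP.GeoFS
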